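import Pool.Agent.H30.AX.Targets
import Pool.Agent.H49.AW.LO2

/-!
# MP_70ba79_ag, board `aw_modules`, module LO3: local estimates, orbifold version
-/

set_option autoImplicit false

namespace Pool.Agent.H49.AX.LO3

open MvPolynomial SC Pool.Agent.H27.LV Pool.Agent.H30.AV Pool.Agent.H30.AW Pool.Agent.H30.AX
open Pool.Agent.H64.AV Pool.Agent.H49.AW.LO2

section

variable {k K : Type} [Field k] [Field K] [Algebra k K] {n : ℕ}

theorem ell_smul (a : Fin (n + 1) → k) (z : Fin (n + 1) → K) (t : K) :
    ell a (fun j => t * z j) = t * ell a z := by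
  unfold ell
  rw [Finset.mul_sum]
  exact Finset.sum_congr rfl fun j _ => by ring

/-- the matrix in normalised coordinates -/
theorem lift2_eq (D : Derivation k K K) (y : Fin n → K) (t : K) (ht : t ≠ 0)
    (p : Fin (n + 1) × Fin (n + 1)) :
    lift2 y D p = (t ^ 2)⁻¹ * ((t * xx y p.1) * D (t * xx y p.2) -
      (t * xx y p.2) * D (t * xx y p.1)) := by
  unfold lift2 wed
  rw [D.leibniz, D.leibniz, smul_eq_mul, smul_eq_mul, smul_eq_mul, smul_eq_mul]
  field_simp
  ring

theorem bil_eq' (D : Derivation k K K) (a b : Fin (n + 1) → k) (y : Fin n → K) (t : K)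
    (ht : t ≠ 0) : bil (evk K b) (lift2 y D) (evk K a) = (t ^ 2)⁻¹ *
      ((t * ell b (xx y)) * D (t * ell a (xx y)) - (t * ell a (xx y)) * D (t * ell b (xx y))) := by
  rw [bil_eq, D.leibniz, D.leibniz, smul_eq_mul, smul_eq_mul, smul_eq_mul, smul_eq_mul]
  field_simp
  ring

end

theorem pf_LO3 (hDOR : T_DOR) : T_LO3 := by
  intro k K _ _ _ _ _ _ htr n m a b S y D hD hm horb v
  obtain ⟨-, ⟨hd1, hd2⟩, -⟩ := hDOR k K htr D hD v
  obtain ⟨hell, horb⟩ := horb
  let t : K := v.unif ^ (poleOrder v y)
  have ht : t ≠ 0 := pow_ne_zero _ v.unif_ne_zero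
  have hot : v.ord t = poleOrder v y := by
    change v.ord (v.unif ^ (poleOrder v y)) = _
    rw [v.ord_pow, v.ord_unif, mul_one]
  have hgt : ge v (poleOrder v y) t := Or.inr hot.ge
  have hti : ge v (-(2 * (poleOrder v y : ℤ))) ((t ^ 2)⁻¹) := by
    right
    rw [v.ord_inv, v.ord_pow, hot]
    push_cast
    exact le_rfl
  have hZ : ∀ s, ge v 0 (t * xx y s) := by
    intro s
    have h := hgt.mul (xx_ge v y s)
    rwa [add_neg_cancel] at h
  have hDge : ∀ x, ge v 0 x → ge v (ordD v D) (D x) := by
    intro x hx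
    rcases hx with hx | hx
    · left
      rw [hx, map_zero]
    · exact hd1 x hx
  have hellb : ge v 0 (t * ell b (xx y)) := by
    have h := hgt.mul (ell_ge v b y)
    rwa [add_neg_cancel] at h
  have hA0 : t * ell a (xx y) ≠ 0 := mul_ne_zero ht hell
  have hA : v.ord (t * ell a (xx y)) = lam v y a := by
    rw [v.ord_mul' ht hell, hot]
    unfold lam
    ring
  have hlam : 0 ≤ lam v y a := by
    have h := (ell_ge v a y).resolve_left hell
    unfold lam
    linarith
  have hkp : kp D S y v ≤ ordD v D - 2 * (poleOrder v y : ℤ) := by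
    unfold kp
    split_ifs <;> linarith
  refine ⟨hlam, fun p => ?_, ?_⟩
  · rw [lift2_eq D y t ht p]
    have h1 := (hZ p.1).mul (hDge _ (hZ p.2))
    have h2 := (hZ p.2).mul (hDge _ (hZ p.1))
    exact (hti.mul (h1.sub h2)).mono (by linarith)
  · rw [bil_eq' D a b y t ht]
    have hm' : (2 : ℤ) ≤ m := by exact_mod_cast hm
    have hfin : ∀ N : ℤ, (m : ℤ) * kp D S y v + (m - 1) * lam v y a ≤
        m * (N - 2 * (poleOrder v y : ℤ)) →
        ge v N ((t * ell b (xx y)) * D (t * ell a (xx y)) -
          (t * ell a (xx y)) * D (t * ell b (xx y))) →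
        ((t ^ 2)⁻¹ * ((t * ell b (xx y)) * D (t * ell a (xx y)) -
          (t * ell a (xx y)) * D (t * ell b (xx y))) = 0 ∨
          (m : ℤ) * kp D S y v + (m - 1) * lam v y a ≤
          m * v.ord ((t ^ 2)⁻¹ * ((t * ell b (xx y)) * D (t * ell a (xx y)) -
          (t * ell a (xx y)) * D (t * ell b (xx y))))) := by
      intro N hN hg
      rcases hti.mul hg with h | h
      · exact Or.inl h
      · right
        refine hN.trans ?_
        exact mul_le_mul_of_nonneg_left (by linarith) (by linarith)
    have hAge : ge v (lam v y a) (t * ell a (xx y)) := Or.inr hA.ge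
    have h1 : ge v (lam v y a - 1 + ordD v D) ((t * ell b (xx y)) * D (t * ell a (xx y)) -
        (t * ell a (xx y)) * D (t * ell b (xx y))) := by
      have h3 := hellb.mul (hd2 _ hA0)
      rw [hA, zero_add] at h3
      have h4 := (hAge.mul (hDge _ hellb)).mono
        (by linarith : lam v y a - 1 + ordD v D ≤ lam v y a + ordD v D)
      exact h3.sub h4
    by_cases hv : v ∈ S
    · have hk : kp D S y v = ordD v D - 2 * (poleOrder v y : ℤ) - 1 := by
        unfold kp
        rw [if_pos hv]
      refine hfin _ ?_ h1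
      rw [hk]
      nlinarith
    · have hk : kp D S y v = ordD v D - 2 * (poleOrder v y : ℤ) := by
        unfold kp
        rw [if_neg hv, sub_zero]
      rcases horb v hv with h0 | h0
      · refine hfin (ordD v D) ?_ ?_
        · rw [hk, h0]
          linarith
        · have h3 := hellb.mul (hDge _ (by rw [← h0]; exact hAge))
          rw [zero_add] at h3
          have h4 := hAge.mul (hDge _ hellb)
          rw [h0, zero_add] at h4
          exact h3.sub h4
      · refine hfin _ ?_ h1
        rw [hk]
        nlinarith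

end Pool.Agent.H49.AX.LO3
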