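import Pool.Agent.H87.AX.Targets4

/-!
AXD: values, equation and energy of an axially symmetric map.
-/

set_option autoImplicit false

open MeasureTheory Metric Set Filter Topology
open scoped ContDiff RealInnerProductSpace ENNReal

namespace Pool.Agent.H49.AX

open Pool.Agent.H87.SN Pool.Agent.H87.SH Pool.Agent.H87.AX

theorem offAxis_open : IsOpen offAxis := by
  have h1 : Continuous (fun x : E (1 + 2) => rho x) := by
    unfold rho
    fun_prop
  exact isOpen_ball.inter (isOpen_lt continuous_const h1)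

theorem offAxis_sub : offAxis ⊆ ball 0 2 := fun _ hx => hx.1

theorem nsq_nn {n m : ℕ} (L : E n →L[ℝ] E m) : 0 ≤ nsq L :=
  Finset.sum_nonneg fun _ _ => sq_nonneg _

theorem nsq_int {n m : ℕ} {μ : Measure (E n)} {G : E n → E n →L[ℝ] E m} (hG : MemLp G 2 μ) :
    Integrable (fun x => nsq (G x)) μ := by
  unfold nsq
  refine integrable_finsetSum _ fun i _ => ?_
  have h1 : MemLp (fun x => G x (bv i)) 2 μ :=
    (ContinuousLinearMap.apply ℝ (E m) (bv i : E n)).comp_memLp' hG
  exact (memLp_two_iff_integrable_sq_norm h1.1).1 h1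

theorem pf_AXD (hST1 : T_ST1) (hCL1 : T_CL1) (hCL2 : T_CL2) (hCL3 : T_CL3) : T_AXD := by
  intro m N A P u G hN hA hS hu hax
  have hae := hCL2 (1 + 2) m offAxis u G hS.w12 offAxis_open offAxis_sub hu
  refine ⟨⟨hu, hCL1 (1 + 2) m N offAxis u hN offAxis_open offAxis_sub hu.continuousOn hS.mem,
    hCL3 (1 + 2) m N A offAxis u G hN hA.continuousOn hS offAxis_open offAxis_sub hu, hax⟩,
    hST1 (1 + 2) m G hS.w12.memLp_deriv hS.stationary, hae, fun S hSm hSb => ?_⟩
  have hint : Integrable (fun x => nsq (G x)) (volume.restrict S) :=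
    (nsq_int hS.w12.memLp_deriv).mono_measure (Measure.restrict_mono hSb le_rfl)
  rw [ofReal_integral_eq_lintegral_ofReal hint (Filter.Eventually.of_forall fun x => nsq_nn _)]
  have h1 : engy u (S ∩ offAxis) = ∫⁻ x in S ∩ offAxis, ENNReal.ofReal (nsq (G x)) := by
    unfold engy
    refine lintegral_congr_ae ?_
    have h2 : ∀ᵐ x ∂(volume.restrict (S ∩ offAxis)), G x = fderiv ℝ u x :=
      ae_mono (Measure.restrict_mono inter_subset_right le_rfl) hae
    filter_upwards [h2] with x hx
    unfold en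
    rw [hx]
  rw [h1]
  exact lintegral_mono' (Measure.restrict_mono inter_subset_left le_rfl) le_rfl

end Pool.Agent.H49.AX
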