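import Pool.Agent.H87.AX.Targets4

/-!
CHV: the cutoff of the bad set.
-/

set_option autoImplicit false

open MeasureTheory Metric Set Filter Topology
open scoped ContDiff RealInnerProductSpace ENNReal

namespace Pool.Agent.H49.AX

open Pool.Agent.H87.SN Pool.Agent.H87.SH Pool.Agent.H87.AX

/-- the square of the positive part -/
theorem hasDeriv_sqp (t : ℝ) : HasDerivAt (fun t : ℝ => (max 0 t) ^ 2) (2 * max 0 t) t := by
  rcases lt_trichotomy t 0 with h | h | h
  · have h1 : HasDerivAt (fun _ : ℝ => (0 : ℝ)) 0 t := hasDerivAt_const t 0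
    rw [max_eq_left h.le, mul_zero]
    refine h1.congr_of_eventuallyEq ?_
    filter_upwards [Iio_mem_nhds h] with x hx
    rw [max_eq_left (le_of_lt hx)]
    norm_num
  · rw [h]
    rw [max_self, mul_zero, hasDerivAt_iff_isLittleO_nhds_zero]
    refine Asymptotics.IsBigO.trans_isLittleO ?_ (Asymptotics.isLittleO_pow_id (𝕜 := ℝ) one_lt_two)
    refine Asymptotics.IsBigO.of_bound 1 (Filter.Eventually.of_forall fun x => ?_)
    simp only [zero_add, max_self, smul_eq_mul, mul_zero, sub_zero, ne_eq, OfNat.ofNat_ne_zero,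
      not_false_eq_true, zero_pow, one_mul, Real.norm_eq_abs]
    rw [abs_of_nonneg (sq_nonneg _), abs_of_nonneg (sq_nonneg _)]
    rcases le_total 0 x with hx | hx
    · rw [max_eq_right hx]
    · rw [max_eq_left hx]
      nlinarith [sq_nonneg x]
  · rw [max_eq_right h.le]
    have h1 : HasDerivAt (fun x : ℝ => x ^ 2) (2 * t) t := by
      have := hasDerivAt_pow 2 t
      simpa using this
    refine h1.congr_of_eventuallyEq ?_
    filter_upwards [Ioi_mem_nhds h] with x hx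
    rw [max_eq_right (le_of_lt hx)]

/-- the cutoff function -/
noncomputable def gc (y : ℝ) : ℝ :=
  1 - (2 * (max 0 (4 * y - 2)) ^ 2 - 4 * (max 0 (4 * y - 5 / 2)) ^ 2 +
    2 * (max 0 (4 * y - 3)) ^ 2)

/-- its derivative -/
noncomputable def gd (y : ℝ) : ℝ :=
  -(16 * max 0 (4 * y - 2) - 32 * max 0 (4 * y - 5 / 2) + 16 * max 0 (4 * y - 3))

theorem hasDeriv_gc (y : ℝ) : HasDerivAt gc (gd y) y := by
  have hl : ∀ a : ℝ, HasDerivAt (fun y : ℝ => 4 * y - a) 4 y := by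
    intro a
    have := ((hasDerivAt_id y).const_mul 4).sub_const a
    simpa using this
  have h1 := (hasDeriv_sqp (4 * y - 2)).comp y (hl 2)
  have h2 := (hasDeriv_sqp (4 * y - 5 / 2)).comp y (hl (5 / 2))
  have h3 := (hasDeriv_sqp (4 * y - 3)).comp y (hl 3)
  have h4 := (((h1.const_mul 2).sub (h2.const_mul 4)).add (h3.const_mul 2)).const_sub 1
  refine h4.congr_deriv ?_
  unfold gd
  ring

theorem gc_contDiff : ContDiff ℝ 1 gc := by
  rw [contDiff_one_iff_deriv]
  refine ⟨fun y => (hasDeriv_gc y).differentiableAt, ?_⟩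
  have e : deriv gc = gd := funext fun y => (hasDeriv_gc y).deriv
  rw [e]
  unfold gd
  fun_prop

theorem gc_bd (y : ℝ) : 0 ≤ gc y ∧ gc y ≤ 1 := by
  unfold gc
  rcases le_total (4 * y - 2) 0 with h1 | h1 <;> rcases le_total (4 * y - 5 / 2) 0 with h2 | h2 <;>
    rcases le_total (4 * y - 3) 0 with h3 | h3
  all_goals first
    | rw [max_eq_left h1] | rw [max_eq_right h1]
  all_goals first
    | rw [max_eq_left h2] | rw [max_eq_right h2]
  all_goals first
    | rw [max_eq_left h3] | rw [max_eq_right h3]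
  all_goals constructor <;> nlinarith

theorem gc_one {y : ℝ} (h : y ≤ 1 / 2) : gc y = 1 := by
  unfold gc
  rw [max_eq_left (by linarith), max_eq_left (by linarith), max_eq_left (by linarith)]
  norm_num

theorem gc_zero {y : ℝ} (h : 3 / 4 ≤ y) : gc y = 0 := by
  unfold gc
  rw [max_eq_right (by linarith), max_eq_right (by linarith), max_eq_right (by linarith)]
  ring

theorem gd_bd {y : ℝ} (hy : 0 ≤ y) : |gd y * y| ≤ 6 := by
  unfold gd
  rw [abs_le]
  rcases le_total (4 * y - 2) 0 with h1 | h1 <;> rcases le_total (4 * y - 5 / 2) 0 with h2 | h2 <;>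
    rcases le_total (4 * y - 3) 0 with h3 | h3
  all_goals first
    | rw [max_eq_left h1] | rw [max_eq_right h1]
  all_goals first
    | rw [max_eq_left h2] | rw [max_eq_right h2]
  all_goals first
    | rw [max_eq_left h3] | rw [max_eq_right h3]
  all_goals constructor <;> nlinarith

/-- the projection to the coordinates `(s, τ)` -/
noncomputable def pj : (ℝ × E 1) →L[ℝ] ℝ × ℝ :=
  (ContinuousLinearMap.fst ℝ ℝ (E 1)).prod
    ((EuclideanSpace.proj (0 : Fin 1)).comp (ContinuousLinearMap.snd ℝ ℝ (E 1)))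

theorem pj_apply (p : ℝ × E 1) : pj p = (p.1, p.2 0) := rfl

theorem pf_CHV (hROT : T_ROT) (hCV2 : T_CV2) (hJGN : T_JGN) : T_CHV := by
  intro ν hν
  obtain ⟨hJ0, hJs, hJ1, hJ2, -⟩ := hJGN ν hν
  have hc0 : (0 : ℝ) < c0 := by
    unfold c0
    norm_num
  set F : ℝ × ℝ → ℝ := fun p => Jn ν p.1 p.2 with hF
  set W : ℝ × E 1 → ℝ := fun p => gc (F (pj p) / c0) with hW
  have hFo : IsOpen {p : ℝ × ℝ | 0 < p.1} := isOpen_lt continuous_const continuous_fst
  have hWs : ContDiffOn ℝ 1 W {p | 0 < p.1} := by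
    have h1 : ContDiffOn ℝ 1 (fun p : ℝ × E 1 => F (pj p)) {p | 0 < p.1} :=
      hJs.comp pj.contDiff.contDiffOn fun p hp => hp
    have h2 : ContDiffOn ℝ 1 (fun p : ℝ × E 1 => F (pj p) / c0) {p | 0 < p.1} :=
      h1.div_const c0
    exact gc_contDiff.comp_contDiffOn h2
  obtain ⟨hχs, hχg⟩ := hCV2 1 W hWs
  have hval : ∀ x : E (1 + 2), W (rho x, zp x) = gc (Jx ν x / c0) := fun x => rfl
  have hgrad : ∀ s : ℝ, ∀ z : E 1, 0 < s →
      s ^ 2 * ((fderiv ℝ W (s, z) (1, 0)) ^ 2 +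
        ∑ i : Fin 1, (fderiv ℝ W (s, z) (0, bv i)) ^ 2) ≤ 2000 := by
    intro s z hs
    have hdF : DifferentiableAt ℝ F (pj (s, z)) := by
      have h1 : ContDiffAt ℝ 1 F (pj (s, z)) := hJs.contDiffAt (hFo.mem_nhds hs)
      exact h1.differentiableAt one_ne_zero
    set F' := fderiv ℝ F (pj (s, z)) with hF'
    have hFd : HasFDerivAt F F' (pj (s, z)) := hdF.hasFDerivAt
    set y : ℝ := Jn ν s (z 0) / c0 with hy
    have hy0 : 0 ≤ y := div_nonneg (hJ0 s (z 0) hs) hc0.le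
    have hWd : HasFDerivAt W (gd y • (c0⁻¹ • F'.comp pj)) (s, z) := by
      have h1 : HasFDerivAt (fun p : ℝ × E 1 => F (pj p)) (F'.comp pj) (s, z) :=
        hFd.comp (s, z) pj.hasFDerivAt
      have h2 : HasFDerivAt (fun p : ℝ × E 1 => F (pj p) / c0) (c0⁻¹ • F'.comp pj) (s, z) := by
        have h3 := h1.const_mul c0⁻¹
        refine h3.congr_of_eventuallyEq (Filter.Eventually.of_forall fun p => ?_)
        simp only
        rw [div_eq_inv_mul]
      have h4 : HasDerivAt gc (gd y) (F (pj (s, z)) / c0) := hasDeriv_gc y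
      have h5 := HasDerivAt.comp_hasFDerivAt (h₂ := gc) (s, z) h4 h2
      exact h5
    have e1 : F' (1, 0) = deriv (fun x => Jn ν x (z 0)) s := by
      have h1 : HasDerivAt (fun x : ℝ => ((x, z 0) : ℝ × ℝ)) (1, 0) s :=
        (hasDerivAt_id s).prodMk (hasDerivAt_const s (z 0))
      exact (hFd.comp_hasDerivAt s h1).deriv.symm
    have e2 : F' (0, 1) = deriv (fun y => Jn ν s y) (z 0) := by
      have h1 : HasDerivAt (fun x : ℝ => ((s, x) : ℝ × ℝ)) (0, 1) (z 0) :=
        (hasDerivAt_const (z 0) s).prodMk (hasDerivAt_id (z 0))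
      exact (hFd.comp_hasDerivAt (z 0) h1).deriv.symm
    have p1 : pj ((1 : ℝ), (0 : E 1)) = (1, 0) := by
      rw [pj_apply]
      rfl
    have p2 : pj ((0 : ℝ), (bv (0 : Fin 1) : E 1)) = (0, 1) := by
      rw [pj_apply]
      simp [bv]
    rw [Fin.sum_univ_one, hWd.fderiv]
    have q1 : (gd y • (c0⁻¹ • F'.comp pj)) ((1 : ℝ), (0 : E 1)) =
        gd y * (c0⁻¹ * deriv (fun x => Jn ν x (z 0)) s) := by
      rw [← e1, ← p1]
      rfl
    have q2 : (gd y • (c0⁻¹ • F'.comp pj)) ((0 : ℝ), (bv (0 : Fin 1) : E 1)) =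
        gd y * (c0⁻¹ * deriv (fun y => Jn ν s y) (z 0)) := by
      rw [← e2, ← p2]
      rfl
    rw [q1, q2]
    have b1 := hJ1 s (z 0) hs
    have b2 := hJ2 s (z 0) hs
    have hJy : Jn ν s (z 0) = c0 * y := by
      rw [hy]
      field_simp
    rw [hJy] at b1 b2
    set D1 := deriv (fun x => Jn ν x (z 0)) s
    set D2 := deriv (fun y => Jn ν s y) (z 0)
    have hg := gd_bd hy0
    have hgs : (gd y * y) ^ 2 ≤ 36 := by
      have := sq_le_sq' (abs_le.1 hg).1 (abs_le.1 hg).2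
      linarith
    have c1 : (s * D1) ^ 2 ≤ (3 / 2 * (c0 * y)) ^ 2 := by
      rw [← sq_abs (s * D1)]
      exact pow_le_pow_left₀ (abs_nonneg _) b1 2
    have c2 : (s * D2) ^ 2 ≤ (3 / 20 * (c0 * y)) ^ 2 := by
      rw [← sq_abs (s * D2)]
      exact pow_le_pow_left₀ (abs_nonneg _) b2 2
    have e3 : s ^ 2 * ((gd y * (c0⁻¹ * D1)) ^ 2 + (gd y * (c0⁻¹ * D2)) ^ 2) =
        (gd y * c0⁻¹) ^ 2 * ((s * D1) ^ 2 + (s * D2) ^ 2) := by ring
    rw [e3]
    have e4 : (gd y * c0⁻¹) ^ 2 * ((s * D1) ^ 2 + (s * D2) ^ 2) ≤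
        (gd y * c0⁻¹) ^ 2 * ((3 / 2 * (c0 * y)) ^ 2 + (3 / 20 * (c0 * y)) ^ 2) :=
      mul_le_mul_of_nonneg_left (add_le_add c1 c2) (sq_nonneg _)
    have e5 : (gd y * c0⁻¹) ^ 2 * ((3 / 2 * (c0 * y)) ^ 2 + (3 / 20 * (c0 * y)) ^ 2) =
        (gd y * y) ^ 2 * (9 / 4 + 9 / 400) := by
      field_simp
      ring
    rw [e5] at e4
    nlinarith
  refine ⟨fun x => W (rho x, zp x), hχs, fun x => ?_, fun θ x => ?_, fun x hx => ?_,
    fun x hx h => ?_, fun x hx h => ?_⟩
  · exact gc_bd _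
  · simp only
    rw [(hROT 1).rho θ x, (hROT 1).zp θ x]
  · rw [hχg x hx]
    exact hgrad (rho x) (zp x) hx
  · refine gc_one ?_
    change Jx ν x / c0 ≤ 1 / 2
    rw [div_le_iff₀ hc0]
    linarith
  · refine gc_zero ?_
    change 3 / 4 ≤ Jx ν x / c0
    rw [le_div_iff₀ hc0]
    exact h

end Pool.Agent.H49.AX
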